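import Pool.Agent.H671R2.ZDomPoly

/-!
# Integer domination is NP-hard

`ZDOM` is the decision problem: given the adjacency matrix of a finite simple graph `G` and an
integer `k`, is the `ℤ`-domination number of `G` at most `k`?

The reduction is from satisfiability of a formula with `n` variables and `m` clauses. Each literal
gets a vertex with a pendant path of length two.  Each variable and each clause gets a check
gadget: the complete graph on `2M` vertices minus a perfect matching, `M = mn + m + 2`, one vertex
of which is joined to the literals of the variable (of the clause).  Then the formula is
satisfiable iff there is an integer dominating function of weight at most `4n + m`.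
-/

namespace Pool.Agent.Results.MP_f6aff2_lc.ZDomNPHard

open Pool.Agent.NPC Pool.Agent.NPC.R671

/-- **Z-DOM is NP-hard.** For every language `L` in `NP` there is a polynomial-time computable
(Mathlib's Turing machines) many-one reduction of `L` to the language of all codes of pairs
`(adjacency matrix of G, k)` such that the `ℤ`-domination number of `G` is at most `k`. -/
theorem result : NPHardP ZDOM := by
  have hpoly : Poly (fun φ : List (List (Bool × ℕ)) => (adjMatrix (ZD.gr φ), ZD.bound φ)) := by
    refine Poly.pair ?_ ZD.bound_poly
    refine ZD.adj_poly.congr fun φ => ?_
    exact (adjMatrix_listGraph _ _ _ _).symm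
  refine (hardI_BSat.trans hpoly fun φ => ?_).toNPHardP
  rw [ZD.correct]
  constructor
  · intro h
    exact ⟨_, ZD.gr φ, rfl, h⟩
  · rintro ⟨n, G, hG, hk⟩
    have hn : n = (ZD.vlist φ.flatten.length φ.length).length := by
      have h1 := congrArg List.length hG
      simp only [adjMatrix, List.length_ofFn] at h1
      exact h1
    subst hn
    rw [← adjMatrix_inj hG]
    exact hk

end Pool.Agent.Results.MP_f6aff2_lc.ZDomNPHard
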